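import Pool.Agent.H88.WR.Targets

/-! BLK. Upper estimates for admissible blocks in the dual. -/

set_option autoImplicit false

open Filter Topology Set Pool.Agent.H85.WMP Pool.Agent.H88.WR

namespace Pool.Agent.H45.WR

theorem pf_BLK (𝕜 : Type) [RCLike 𝕜] : T_BLK 𝕜 := by
  intro M N hN S A b C hA hb hs hC
  refine ContinuousLinearMap.opNorm_le_bound _ (by positivity) (fun v => ?_)
  obtain ⟨x, rfl⟩ := S.e.surjective v
  rw [S.norm_e, ContinuousLinearMap.sum_apply]
  have h1 : ∀ a ∈ A, ‖b a (S.e x)‖ ≤ C * N (x.filter (Cell A a)) := by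
    intro a ha
    rw [hs a ha x]
    refine ((b a).le_opNorm _).trans ?_
    rw [S.norm_e]
    refine mul_le_mul_of_nonneg_right (hb a ha) ?_
    rw [← S.norm_e]
    exact norm_nonneg _
  refine (norm_sum_le _ _).trans ((Finset.sum_le_sum h1).trans ?_)
  rw [← Finset.mul_sum]
  have h2 := mul_le_mul_of_nonneg_left (hN.adm A hA x) hC
  refine h2.trans (le_of_eq (by ring))

end Pool.Agent.H45.WR
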