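import Pool.Agent.H88.WR.Targets

/-! JTL. The sequences of James are far from their limits. -/

set_option autoImplicit false

open Filter Topology Set Pool.Agent.H85.WMP Pool.Agent.H88.WR

namespace Pool.Agent.H45.WR

theorem pf_JTL (𝕜 : Type) [RCLike 𝕜] : T_JTL 𝕜 := by
  intro E _ _ θ f x hθ hf hx h1 h0 u hu w hw
  have hU : ∃ m : ℕ, ∀ j, m ≤ j → u (x j) = ((θ : ℝ) : 𝕜) := by
    have hc : Convex ℝ {u : StrongDual 𝕜 E | ∃ m : ℕ, ∀ j, m ≤ j → u (x j) = ((θ : ℝ) : 𝕜)} := by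
      rintro u1 ⟨m1, hm1⟩ u2 ⟨m2, hm2⟩ a b _ _ hab
      refine ⟨max m1 m2, fun j hj => ?_⟩
      rw [ContinuousLinearMap.add_apply, ContinuousLinearMap.smul_apply,
        ContinuousLinearMap.smul_apply, hm1 j ((le_max_left _ _).trans hj),
        hm2 j ((le_max_right _ _).trans hj), ← add_smul, hab, one_smul]
    have hsub : range f ⊆
        {u : StrongDual 𝕜 E | ∃ m : ℕ, ∀ j, m ≤ j → u (x j) = ((θ : ℝ) : 𝕜)} := by
      rintro _ ⟨n, rfl⟩
      exact ⟨n, fun j hj => h1 n j hj⟩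
    exact convexHull_min hsub hc hu
  obtain ⟨m, hm⟩ := hU
  have hlim : ∀ z : E, (∀ᶠ n in atTop, f n z = 0) → RCLike.re (w z) ≤ 0 := by
    intro z hz
    refine (hw z).trans (le_of_eq ?_)
    have h2 : Tendsto (fun n => RCLike.re (f n z)) atTop (𝓝 (0 : ℝ)) := by
      refine tendsto_const_nhds.congr' ?_
      filter_upwards [hz] with n hn
      rw [hn, map_zero]
    exact h2.limsup_eq
  have hev : ∀ᶠ n in atTop, f n (x m) = 0 := by
    filter_upwards [eventually_gt_atTop m] with n hn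
    exact h0 n m hn
  have h2 : RCLike.re (w (x m)) ≤ 0 := hlim _ hev
  have h3 : RCLike.re (w (-(x m))) ≤ 0 := by
    refine hlim _ ?_
    filter_upwards [hev] with n hn
    rw [map_neg, hn, neg_zero]
  rw [map_neg, map_neg] at h3
  have h4 : RCLike.re (w (x m)) = 0 := le_antisymm h2 (by linarith)
  have h5 : RCLike.re ((u - w) (x m)) = θ := by
    rw [ContinuousLinearMap.sub_apply, map_sub, h4, hm m le_rfl, RCLike.ofReal_re, sub_zero]
  calc θ = RCLike.re ((u - w) (x m)) := h5.symm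
    _ ≤ ‖(u - w) (x m)‖ := RCLike.re_le_norm _
    _ ≤ ‖u - w‖ * ‖x m‖ := (u - w).le_opNorm _
    _ ≤ ‖u - w‖ * 1 := mul_le_mul_of_nonneg_left (hx m) (norm_nonneg _)
    _ = ‖u - w‖ := mul_one _

end Pool.Agent.H45.WR
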