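import Pool.Agent.H88.WR.Targets

/-! OPM. Upper estimates in the range of a noncompact operator. -/

set_option autoImplicit false

open Filter Topology Set Pool.Agent.H85.WMP Pool.Agent.H88.WR

namespace Pool.Agent.H45.WR

theorem suppIn_cell {𝕜 : Type} [RCLike 𝕜] {N : (ℕ →₀ 𝕜) → ℝ} (S : Spc 𝕜 N) (b : S.D)
    (p q : ℕ → Prop) [DecidablePred p] [DecidablePred q] (h : SuppIn S b p)
    (hpq : ∀ i, p i → q i) : SuppIn S b q := by
  intro x
  rw [h x, h (x.filter q)]
  have h1 : (x.filter q).filter p = x.filter p := by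
    ext i
    by_cases hi : p i
    · rw [Finsupp.filter_apply_pos _ _ hi, Finsupp.filter_apply_pos _ _ hi,
        Finsupp.filter_apply_pos _ _ (hpq i hi)]
    · rw [Finsupp.filter_apply_neg _ _ hi, Finsupp.filter_apply_neg _ _ hi]
  rw [h1]

theorem pf_OPM (𝕜 : Type) [RCLike 𝕜] (hOPB : T_OPB 𝕜) (hBLK : T_BLK 𝕜) : T_OPM 𝕜 := by
  intro M N hM hN S F _ _ _ T hT
  obtain ⟨m, b, C, δ, hm, hδ, hC, hs, hb, hbT⟩ := hOPB M N hM hN S F T hT
  refine ⟨m, fun j => T (b j), δ, ‖T‖ * (2 * C), hm, hδ, hbT, ?_⟩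
  intro s hsM a ha
  set B : ℕ → S.D := Function.extend m (fun j => a j • b j) 0 with hB
  have hBm : ∀ j, B (m j) = a j • b j := fun j => hm.injective.extend_apply _ _ j
  have h1 : ‖∑ n ∈ s.image m, B n‖ ≤ 2 * C := by
    refine hBLK M N hN S (s.image m) B C hsM ?_ ?_ hC
    · intro n hn
      obtain ⟨j, _, rfl⟩ := Finset.mem_image.1 hn
      rw [hBm, norm_smul]
      calc ‖a j‖ * ‖b j‖ ≤ 1 * C :=
            mul_le_mul (ha j) (hb j) (norm_nonneg _) zero_le_one
        _ = C := one_mul C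
    · intro n hn
      obtain ⟨j, _, rfl⟩ := Finset.mem_image.1 hn
      rw [hBm]
      have h2 : SuppIn S (b j) (Cell (s.image m) (m j)) := by
        refine suppIn_cell S (b j) _ _ (hs j) ?_
        rintro i ⟨h3, h4⟩
        refine ⟨h3, fun c hc hci => ?_⟩
        obtain ⟨l, _, rfl⟩ := Finset.mem_image.1 hc
        have h5 : l < j + 1 := hm.lt_iff_lt.1 (lt_of_le_of_lt hci h4)
        exact hm.monotone (Nat.lt_succ_iff.1 h5)
      intro x
      rw [ContinuousLinearMap.smul_apply, ContinuousLinearMap.smul_apply, h2 x]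
  rw [Finset.sum_image (fun i _ j _ h => hm.injective h)] at h1
  have h2 : ∑ i ∈ s, a i • T (b i) = T (∑ j ∈ s, B (m j)) := by
    rw [map_sum]
    refine Finset.sum_congr rfl (fun j _ => ?_)
    rw [hBm, map_smul]
  change ‖∑ i ∈ s, a i • T (b i)‖ ≤ _
  rw [h2]
  exact (T.le_opNorm _).trans (mul_le_mul_of_nonneg_left h1 (norm_nonneg _))

end Pool.Agent.H45.WR
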